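import Mathlib

/-!
# Two different weak fp-envelopes over the integers

`N_u` is the graded module over the divided power algebra `D` over `ℤ` with generators `a` (degree
`0`) and `b` (degree `12`) and relations `x^[1] a = 0`, `x^[1] b = 0`, `3 x^[36] a = 2 u x^[24] b`.
Then `N_1` and `N_5` are not isomorphic but their truncations in degrees `≥ 13` are.
-/

set_option autoImplicit false

open Polynomial

namespace Pool.Agent.Results.MP_c3bf79_al.TwoEnvelopes

section ring

/-- `n!` times the coefficient of `x^n` is an integer, for all `n`. -/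
def IsDP (f : ℚ[X]) : Prop := ∀ n : ℕ, ∃ z : ℤ, (n.factorial : ℚ) * f.coeff n = z

lemma IsDP.mul {f g : ℚ[X]} (hf : IsDP f) (hg : IsDP g) : IsDP (f * g) := by
  intro n
  choose a ha using hf
  choose b hb using hg
  refine ⟨∑ x ∈ Finset.HasAntidiagonal.antidiagonal n, (n.choose x.1 : ℤ) * (a x.1 * b x.2), ?_⟩
  rw [coeff_mul, Finset.mul_sum]
  push_cast
  refine Finset.sum_congr rfl fun x hx => ?_
  rw [Finset.HasAntidiagonal.mem_antidiagonal] at hx
  rw [← ha, ← hb]
  have h1 : x.1 ≤ n := by omega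
  have h2 := Nat.choose_mul_factorial_mul_factorial h1
  have h3 : n - x.1 = x.2 := by omega
  rw [h3] at h2
  have h4 : (n.factorial : ℚ) = n.choose x.1 * x.1.factorial * x.2.factorial := by
    exact_mod_cast h2.symm
  rw [h4]
  ring

lemma IsDP.one : IsDP (1 : ℚ[X]) := by
  intro n
  rw [coeff_one]
  split_ifs with h
  · exact ⟨1, by rw [h]; simp⟩
  · exact ⟨0, by simp⟩

lemma IsDP.add {f g : ℚ[X]} (hf : IsDP f) (hg : IsDP g) : IsDP (f + g) := by
  intro n
  obtain ⟨a, ha⟩ := hf n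
  obtain ⟨b, hb⟩ := hg n
  exact ⟨a + b, by rw [coeff_add, mul_add, ha, hb]; push_cast; rfl⟩

lemma IsDP.zero : IsDP (0 : ℚ[X]) := fun n => ⟨0, by simp⟩

lemma IsDP.neg {f : ℚ[X]} (hf : IsDP f) : IsDP (-f) := by
  intro n
  obtain ⟨a, ha⟩ := hf n
  exact ⟨-a, by rw [coeff_neg, mul_neg, ha]; push_cast; rfl⟩

/-- The divided power algebra in one variable over `ℤ`: the subring of `ℚ[x]` of the polynomials
`∑ a_n x^n / n!` with integers `a_n`. -/
def DSub : Subring ℚ[X] where
  carrier := {f | IsDP f}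
  mul_mem' := IsDP.mul
  one_mem' := IsDP.one
  add_mem' := IsDP.add
  zero_mem' := IsDP.zero
  neg_mem' := IsDP.neg

/-- The divided power algebra, as a type. -/
def D : Type := DSub

noncomputable instance : CommRing D := inferInstanceAs (CommRing DSub)

lemma coe_add (f g : D) : (f + g).1 = f.1 + g.1 := rfl
lemma coe_mul (f g : D) : (f * g).1 = f.1 * g.1 := rfl
lemma coe_neg (f : D) : (-f).1 = -f.1 := rfl
lemma coe_zero : (0 : D).1 = 0 := rfl
lemma coe_one : (1 : D).1 = 1 := rfl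

lemma isDP_monomial (n : ℕ) : IsDP (monomial n (1 / (n.factorial : ℚ))) := by
  intro m
  rw [coeff_monomial]
  split_ifs with h
  · subst h
    exact ⟨1, by
      have : (n.factorial : ℚ) ≠ 0 := Nat.cast_ne_zero.2 (Nat.factorial_ne_zero n)
      field_simp
      simp⟩
  · exact ⟨0, by simp⟩

/-- The divided power `x^[n] = x^n / n!`. -/
noncomputable def dp (n : ℕ) : D := ⟨monomial n (1 / (n.factorial : ℚ)), isDP_monomial n⟩

lemma coe_zsmul (z : ℤ) (f : D) : (z • f).1 = z • f.1 := rfl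

lemma dp_mul (i j : ℕ) : dp i * dp j = ((i + j).choose i : ℤ) • dp (i + j) := by
  apply Subtype.ext
  rw [coe_mul, coe_zsmul]
  show monomial i _ * monomial j _ = _ • monomial (i + j) _
  rw [monomial_mul_monomial, smul_monomial]
  congr 1
  have h1 : ((i + j).factorial : ℚ) = (i + j).choose i * i.factorial * j.factorial := by
    have := Nat.choose_mul_factorial_mul_factorial (Nat.le_add_right i j)
    rw [Nat.add_sub_cancel_left] at this
    exact_mod_cast this.symm
  have h2 : (i.factorial : ℚ) ≠ 0 := Nat.cast_ne_zero.2 (Nat.factorial_ne_zero i)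
  have h3 : (j.factorial : ℚ) ≠ 0 := Nat.cast_ne_zero.2 (Nat.factorial_ne_zero j)
  have h4 : ((i + j).choose i : ℚ) ≠ 0 :=
    Nat.cast_ne_zero.2 (Nat.choose_pos (Nat.le_add_right i j)).ne'
  rw [zsmul_eq_mul, h1]
  push_cast
  field_simp

/-- The homogeneous part of degree `m` of `D` (zero if `m < 0`). -/
def DPart (m : ℤ) (f : D) : Prop := ∀ n : ℕ, (n : ℤ) ≠ m → f.1.coeff n = 0

end ring

section modules

/-- A presentation of a graded `D`-module by `r` homogeneous generators and `s` homogeneous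
relations: the generators have degrees `d i`, the relations are homogeneous vectors of degree
`e j` in the free module `⨁ D[-d i]`. -/
structure GrPres (r s : ℕ) where
  /-- the degrees of the generators -/
  d : Fin r → ℤ
  /-- the degrees of the relations -/
  e : Fin s → ℤ
  /-- the relations -/
  rel : Fin s → (Fin r → D)
  /-- the relations are homogeneous -/
  hom : ∀ j i, DPart (e j - d i) (rel j i)

variable {r s r' s' : ℕ}

/-- The submodule spanned by the relations. -/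
noncomputable def GrPres.K (P : GrPres r s) : Submodule D (Fin r → D) := Submodule.span D (Set.range P.rel)

/-- The underlying module of the finitely presented graded module given by a presentation. -/
abbrev GrPres.N (P : GrPres r s) : Type := (Fin r → D) ⧸ P.K

/-- The homogeneous part of degree `m` of this module. -/
def GrPres.gr (P : GrPres r s) (m : ℤ) : Set P.N :=
  {y | ∃ v : Fin r → D, (∀ i, DPart (m - P.d i) (v i)) ∧ P.K.mkQ v = y}

/-- A `D`-module `M` with its homogeneous parts. -/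
structure GrMod where
  /-- the module -/
  M : Type
  /-- its addition -/
  [grp : AddCommGroup M]
  /-- its multiplication by elements of `D` -/
  [mod : Module D M]
  /-- the homogeneous parts -/
  gr : ℤ → Set M

attribute [instance] GrMod.grp GrMod.mod

/-- The finitely presented graded module given by a presentation. -/
noncomputable def GrPres.toGrMod (P : GrPres r s) : GrMod where
  M := P.N
  gr := P.gr

/-- The truncation `τ_{≥ n}`, as a submodule: the submodule generated by the homogeneous parts of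
degree `≥ n`. -/
noncomputable def GrMod.truncSub (A : GrMod) (n : ℤ) : Submodule D A.M :=
  Submodule.span D {y | ∃ m, n ≤ m ∧ y ∈ A.gr m}

/-- The truncation `τ_{≥ n}`, as a graded module. -/
noncomputable def GrMod.trunc (A : GrMod) (n : ℤ) : GrMod where
  M := A.truncSub n
  gr m := {y | y.1 ∈ A.gr m}

/-- `A` and `B` are isomorphic as graded `D`-modules. -/
def GrMod.Iso (A B : GrMod) : Prop :=
  ∃ f : A.M ≃ₗ[D] B.M, ∀ (m : ℤ) (y : A.M), y ∈ A.gr m ↔ f y ∈ B.gr m

/-- The truncation of a finitely presented module as a submodule. -/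
noncomputable def GrPres.trunc (P : GrPres r s) (n : ℤ) : Submodule D P.N :=
  Submodule.span D {y | ∃ m, n ≤ m ∧ y ∈ P.gr m}

/-- The modules are isomorphic as graded `D`-modules. -/
def GrIso (P : GrPres r s) (P' : GrPres r' s') : Prop :=
  ∃ f : P.N ≃ₗ[D] P'.N, ∀ (m : ℤ) (y : P.N), y ∈ P.gr m ↔ f y ∈ P'.gr m

/-- The truncations in degrees `≥ n` are isomorphic as graded `D`-modules. -/
def TruncIso (P : GrPres r s) (P' : GrPres r' s') (n : ℤ) : Prop :=
  ∃ f : P.trunc n ≃ₗ[D] P'.trunc n, ∀ (m : ℤ) (y : P.trunc n), y.1 ∈ P.gr m ↔ (f y).1 ∈ P'.gr m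

end modules

section coordinates

/-- The coordinates: `n!` times the coefficient of `x^n`. -/
noncomputable def co (n : ℕ) (f : D) : ℤ := ((n.factorial : ℚ) * f.1.coeff n).num

lemma co_cast (n : ℕ) (f : D) : ((co n f : ℤ) : ℚ) = (n.factorial : ℚ) * f.1.coeff n := by
  obtain ⟨z, hz⟩ := f.2 n
  rw [co, hz, Rat.num_intCast]

lemma co_add (n : ℕ) (f g : D) : co n (f + g) = co n f + co n g := by
  have : ((co n (f + g) : ℤ) : ℚ) = ((co n f + co n g : ℤ) : ℚ) := by
    push_cast
    rw [co_cast, co_cast, co_cast, coe_add, coeff_add, mul_add]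
  exact_mod_cast this

lemma co_neg (n : ℕ) (f : D) : co n (-f) = - co n f := by
  have : ((co n (-f) : ℤ) : ℚ) = ((- co n f : ℤ) : ℚ) := by
    push_cast
    rw [co_cast, co_cast, coe_neg, coeff_neg, mul_neg]
  exact_mod_cast this

lemma co_zero (n : ℕ) : co n 0 = 0 := by
  have : ((co n 0 : ℤ) : ℚ) = ((0 : ℤ) : ℚ) := by
    rw [co_cast, coe_zero, coeff_zero, mul_zero]; simp
  exact_mod_cast this

lemma co_smul (n : ℕ) (z : ℤ) (f : D) : co n (z • f) = z * co n f := by
  have : ((co n (z • f) : ℤ) : ℚ) = ((z * co n f : ℤ) : ℚ) := by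
    push_cast
    rw [co_cast, co_cast, coe_zsmul, coeff_smul, zsmul_eq_mul]
    ring
  exact_mod_cast this

lemma co_dp (n m : ℕ) : co n (dp m) = if m = n then 1 else 0 := by
  have : ((co n (dp m) : ℤ) : ℚ) = (((if m = n then 1 else 0 : ℤ)) : ℚ) := by
    rw [co_cast]
    show (n.factorial : ℚ) * (monomial m (1 / (m.factorial : ℚ))).coeff n = _
    rw [coeff_monomial]
    split_ifs with h
    · subst h
      have : (m.factorial : ℚ) ≠ 0 := Nat.cast_ne_zero.2 (Nat.factorial_ne_zero m)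
      field_simp
      simp
    · simp
  exact_mod_cast this

lemma ext_co {f g : D} (h : ∀ n, co n f = co n g) : f = g := by
  apply Subtype.ext
  ext n
  have h1 : ((co n f : ℤ) : ℚ) = co n g := by rw [h n]
  rw [co_cast, co_cast] at h1
  exact mul_left_cancel₀ (Nat.cast_ne_zero.2 (Nat.factorial_ne_zero n)) h1

lemma co_eq_zero_of_natDegree_lt {f : D} {n : ℕ} (h : f.1.natDegree < n) : co n f = 0 := by
  have : ((co n f : ℤ) : ℚ) = ((0 : ℤ) : ℚ) := by
    rw [co_cast, coeff_eq_zero_of_natDegree_lt h, mul_zero]; simp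
  exact_mod_cast this

lemma co_sum {ι : Type*} (s : Finset ι) (n : ℕ) (g : ι → D) :
    co n (∑ i ∈ s, g i) = ∑ i ∈ s, co n (g i) := by
  classical
  induction s using Finset.induction_on with
  | empty => simp [co_zero]
  | insert a s ha ih => rw [Finset.sum_insert ha, Finset.sum_insert ha, co_add, ih]

lemma eq_sum (f : D) : f = ∑ n ∈ Finset.range (f.1.natDegree + 1), co n f • dp n := by
  apply ext_co
  intro m
  rw [co_sum]
  simp only [co_smul, co_dp, mul_ite, mul_one, mul_zero]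
  rw [Finset.sum_ite_eq']
  split_ifs with h
  · rfl
  · exact co_eq_zero_of_natDegree_lt (by simpa using h)

/-- Induction on elements of `D`. -/
lemma D_induction {p : D → Prop} (h0 : p 0) (hadd : ∀ f g, p f → p g → p (f + g))
    (hx : ∀ (z : ℤ) (n : ℕ), p (z • dp n)) (f : D) : p f := by
  rw [eq_sum f]
  refine Finset.sum_induction _ p hadd h0 fun n _ => hx _ n

lemma eq_of_DPart {m : ℕ} {f : D} (hf : DPart (m : ℤ) f) : f = co m f • dp m := by
  apply ext_co
  intro n
  rw [co_smul, co_dp]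
  split_ifs with h
  · rw [h, mul_one]
  · have : ((co n f : ℤ) : ℚ) = ((0 : ℤ) : ℚ) := by
      rw [co_cast, hf n (fun h' => h (by exact_mod_cast h'.symm)), mul_zero]; simp
    rw [mul_zero]
    exact_mod_cast this

lemma eq_zero_of_DPart {m : ℤ} (hm : m < 0) {f : D} (hf : DPart m f) : f = 0 := by
  apply Subtype.ext
  ext n
  rw [hf n (by omega)]
  rfl

lemma DPart_dp (z : ℤ) (n : ℕ) : DPart (n : ℤ) (z • dp n) := by
  intro m hm
  rw [coe_zsmul, coeff_smul]
  show z • (monomial n (1 / (n.factorial : ℚ))).coeff m = 0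
  rw [coeff_monomial, if_neg (fun h => hm (by exact_mod_cast h.symm)), smul_zero]

lemma DPart_zero (m : ℤ) : DPart m 0 := fun _ _ => rfl

end coordinates

section arithmetic

/-- The multipliers. -/
def c (m : ℕ) : ℤ := 2 * 3 ^ m.factorial - 1

lemma dvd_three_pow {m k l : ℕ} (hm : 1 ≤ m) (hk : m ≤ k) (hl : m.factorial ∣ l) :
    (m : ℤ) ∣ 3 ^ k * (3 ^ l - 1) := by
  obtain ⟨v, q, hq, hmq⟩ := Nat.exists_eq_pow_mul_and_not_dvd (n := m) (by omega) 3 (by norm_num)
  have hq0 : 0 < q := Nat.pos_of_ne_zero (by rintro rfl; simp at hq)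
  have hqm : q ≤ m := by rw [hmq]; exact Nat.le_mul_of_pos_left _ (by positivity)
  have hvm : v ≤ m := by
    have h1 : v < 3 ^ v := Nat.lt_pow_self (by norm_num)
    have h2 : 3 ^ v ≤ m := by rw [hmq]; exact Nat.le_mul_of_pos_right _ hq0
    omega
  have h3 : ((3 ^ v : ℕ) : ℤ) ∣ 3 ^ k := by
    push_cast
    exact pow_dvd_pow _ (by omega)
  have hco : Nat.Coprime 3 q := (Nat.Prime.coprime_iff_not_dvd Nat.prime_three).2 hq
  have h4 : (q : ℤ) ∣ 3 ^ l - 1 := by
    have h5 : q.totient ∣ l :=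
      (Nat.dvd_factorial (Nat.totient_pos.2 hq0) ((Nat.totient_le q).trans hqm)).trans hl
    obtain ⟨w, rfl⟩ := h5
    have h6 := (Nat.ModEq.pow_totient hco).pow w
    rw [one_pow, ← pow_mul] at h6
    have h7 := (Nat.modEq_iff_dvd.1 h6.symm)
    push_cast at h7
    exact h7
  rw [hmq]
  push_cast
  push_cast at h3
  exact mul_dvd_mul h3 h4

lemma c_sub {m m' : ℕ} (hm : 1 ≤ m) (h : m ≤ m') : (m : ℤ) ∣ c m' - c m := by
  obtain ⟨l, hl⟩ := Nat.exists_eq_add_of_le (Nat.factorial_le h)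
  have h1 : m.factorial ∣ l := (Nat.dvd_add_right (dvd_refl _)).1 (by
    rw [← hl]; exact Nat.factorial_dvd_factorial h)
  have h2 := dvd_three_pow hm (Nat.self_le_factorial m) h1
  have h3 : c m' - c m = 2 * (3 ^ m.factorial * (3 ^ l - 1)) := by
    unfold c
    rw [hl, pow_add]
    ring
  rw [h3]
  exact Dvd.dvd.mul_left h2 _

lemma c_sq {m : ℕ} (hm : 1 ≤ m) : (m : ℤ) ∣ c m * c m - 1 := by
  have h2 := dvd_three_pow hm (Nat.self_le_factorial m) (dvd_refl _)
  have h3 : c m * c m - 1 = 4 * (3 ^ m.factorial * (3 ^ m.factorial - 1)) := by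
    unfold c
    ring
  rw [h3]
  exact Dvd.dvd.mul_left h2 _

lemma c_mod (m : ℕ) : (12 : ℤ) ∣ c m - 5 := by
  obtain ⟨l, hl⟩ := Nat.exists_eq_add_of_le (Nat.factorial_pos m)
  have h1 : (2 : ℤ) ∣ 3 ^ l - 1 := by
    have h2 : Odd ((3 : ℤ) ^ l) := Odd.pow (by decide)
    obtain ⟨w, hw⟩ := h2
    exact ⟨w, by rw [hw]; ring⟩
  obtain ⟨w, hw⟩ := h1
  refine ⟨w, ?_⟩
  unfold c
  have h3 : m.factorial = l + 1 := by omega
  rw [h3, pow_succ]
  linarith

/-- `(m + j)` divides `m C(m + j, j)`. -/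
lemma dvd_choose (j m : ℕ) (hm : 1 ≤ m) :
    ((j + m : ℕ) : ℤ) ∣ (m : ℤ) * ((j + m).choose j : ℤ) := by
  obtain ⟨m, rfl⟩ : ∃ m', m = m' + 1 := ⟨m - 1, by omega⟩
  have h1 := Nat.add_one_mul_choose_eq (j + m) m
  have h2 : (j + (m + 1)).choose j = (j + m + 1).choose (m + 1) := by
    rw [← Nat.choose_symm_of_eq_add (by omega : j + (m + 1) = (m + 1) + j)]
    rfl
  refine ⟨((j + m).choose m : ℤ), ?_⟩
  rw [h2]
  have h3 : ((j + m + 1 : ℕ) : ℤ) * ((j + m).choose m : ℤ) =
      ((j + m + 1).choose (m + 1) : ℤ) * ((m + 1 : ℕ) : ℤ) := by exact_mod_cast h1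
  have h4 : ((j + (m + 1) : ℕ) : ℤ) = ((j + m + 1 : ℕ) : ℤ) := by push_cast; ring
  rw [h4, h3]
  ring

attribute [local irreducible] c

end arithmetic

attribute [local irreducible] c

section example'

/-- The relation vectors. -/
noncomputable def rel (u : ℤ) : Fin 3 → (Fin 2 → D) :=
  ![![dp 1, 0], ![0, dp 1], ![(3 : ℤ) • dp 36, (-(2 * u)) • dp 24]]

lemma DPart_of_eq {m : ℤ} {n : ℕ} (h : m = n) (z : ℤ) : DPart m (z • dp n) := by
  subst h; exact DPart_dp z n

lemma DPart_of_eq' {m : ℤ} {n : ℕ} (h : m = n) : DPart m (dp n) := by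
  have := DPart_of_eq h 1
  rwa [one_smul] at this

lemma rel_hom (u : ℤ) (j : Fin 3) (i : Fin 2) :
    DPart ((![1, 13, 36] : Fin 3 → ℤ) j - (![0, 12] : Fin 2 → ℤ) i) (rel u j i) := by
  fin_cases j <;> fin_cases i
  · exact DPart_of_eq' (by norm_num)
  · exact DPart_zero _
  · exact DPart_zero _
  · exact DPart_of_eq' (by norm_num)
  · exact DPart_of_eq (by norm_num) _
  · exact DPart_of_eq (by norm_num) _

/-- The module `N_u`: generators `a`, `b` of degrees `0`, `12` and relations `x^[1] a = 0`,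
`x^[1] b = 0`, `3 x^[36] a = 2 u x^[24] b`. -/
noncomputable def PP (u : ℤ) : GrPres 2 3 where
  d := ![0, 12]
  e := ![1, 13, 36]
  rel := rel u
  hom := rel_hom u

lemma K_induction {u : ℤ} {p : (Fin 2 → D) → Prop} (h0 : p 0)
    (hadd : ∀ v w, p v → p w → p (v + w))
    (hgen : ∀ (z : ℤ) (i : ℕ) (t : Fin 3), p ((z • dp i) • rel u t)) {v : Fin 2 → D}
    (hv : v ∈ (PP u).K) : p v := by
  have key : ∀ d : D, p (d • v) := by
    refine Submodule.span_induction (p := fun v _ => ∀ d : D, p (d • v)) ?_ ?_ ?_ ?_ hv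
    · rintro _ ⟨t, rfl⟩ d
      refine D_induction (p := fun d => p (d • rel u t)) ?_ ?_ ?_ d
      · rw [zero_smul]; exact h0
      · intro f g hf hg
        rw [add_smul]; exact hadd _ _ hf hg
      · intro z n; exact hgen z n t
    · intro d; rw [smul_zero]; exact h0
    · intro x y _ _ hx hy d
      rw [smul_add]; exact hadd _ _ (hx d) (hy d)
    · intro a x _ hx d
      rw [smul_smul]; exact hx _
  have := key 1
  rwa [one_smul] at this

lemma rel_mem (u : ℤ) (d : D) (t : Fin 3) : d • rel u t ∈ (PP u).K :=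
  Submodule.smul_mem _ _ (Submodule.subset_span ⟨t, rfl⟩)

lemma smul_dp_mul (z z' : ℤ) (i j : ℕ) :
    (z • dp i) * (z' • dp j) = (z * z' * ((i + j).choose i : ℤ)) • dp (i + j) := by
  rw [smul_mul_smul_comm, dp_mul, smul_smul]

lemma choose_succ_left (i : ℕ) : (i + 1).choose i = i + 1 := by
  rw [Nat.choose_succ_self_right]

lemma memA {u : ℤ} {n : ℕ} (hn : 1 ≤ n) {z : ℤ} (hz : (n : ℤ) ∣ z) :
    ![z • dp n, 0] ∈ (PP u).K := by
  obtain ⟨q, rfl⟩ := hz
  obtain ⟨i, rfl⟩ : ∃ i, n = i + 1 := ⟨n - 1, by omega⟩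
  have h := rel_mem u (q • dp i) 0
  have h2 : (q • dp i) • rel u 0 = ![(((i + 1 : ℕ) : ℤ) * q) • dp (i + 1), 0] := by
    ext1 t
    fin_cases t
    · show (q • dp i) * dp 1 = _
      have h3 := smul_dp_mul q 1 i 1
      rw [one_smul, choose_succ_left] at h3
      rw [h3]
      show _ = (((i + 1 : ℕ) : ℤ) * q) • dp (i + 1)
      congr 1; ring
    · show (q • dp i) * 0 = 0
      rw [mul_zero]
  rwa [h2] at h

lemma memB {u : ℤ} {n : ℕ} (hn : 1 ≤ n) {z : ℤ} (hz : (n : ℤ) ∣ z) :
    ![0, z • dp n] ∈ (PP u).K := by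
  obtain ⟨q, rfl⟩ := hz
  obtain ⟨i, rfl⟩ : ∃ i, n = i + 1 := ⟨n - 1, by omega⟩
  have h := rel_mem u (q • dp i) 1
  have h2 : (q • dp i) • rel u 1 = ![0, (((i + 1 : ℕ) : ℤ) * q) • dp (i + 1)] := by
    ext1 t
    fin_cases t
    · show (q • dp i) * 0 = 0
      rw [mul_zero]
    · show (q • dp i) * dp 1 = _
      have h3 := smul_dp_mul q 1 i 1
      rw [one_smul, choose_succ_left] at h3
      rw [h3]
      show _ = (((i + 1 : ℕ) : ℤ) * q) • dp (i + 1)
      congr 1; ring
  rwa [h2] at h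

/-- Multiplication of the coordinates by the multipliers, on polynomials. -/
noncomputable def mulcP (f : ℚ[X]) : ℚ[X] :=
  ∑ n ∈ Finset.range (f.natDegree + 1), monomial n ((c n : ℚ) * f.coeff n)

lemma coeff_mulcP (f : ℚ[X]) (n : ℕ) : (mulcP f).coeff n = (c n : ℚ) * f.coeff n := by
  unfold mulcP
  rw [finsetSum_coeff]
  simp only [coeff_monomial]
  rw [Finset.sum_ite_eq']
  split_ifs with h
  · rfl
  · rw [coeff_eq_zero_of_natDegree_lt (by simpa using h), mul_zero]

lemma isDP_mulcP {f : ℚ[X]} (hf : IsDP f) : IsDP (mulcP f) := by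
  intro n
  obtain ⟨z, hz⟩ := hf n
  refine ⟨c n * z, ?_⟩
  rw [coeff_mulcP, mul_left_comm, hz]
  push_cast
  rfl

/-- Multiplication of the coordinates by the multipliers. -/
noncomputable def mulc : D →+ D where
  toFun f := ⟨mulcP f.1, isDP_mulcP f.2⟩
  map_zero' := by
    apply Subtype.ext
    ext n
    show (mulcP 0).coeff n = (0 : ℚ[X]).coeff n
    rw [coeff_mulcP]
    simp
  map_add' f g := by
    apply Subtype.ext
    ext n
    show (mulcP (f.1 + g.1)).coeff n = (mulcP f.1 + mulcP g.1).coeff n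
    rw [coeff_mulcP, coeff_add, coeff_add, coeff_mulcP, coeff_mulcP, mul_add]

lemma coeff_mulc (f : D) (n : ℕ) : (mulc f).1.coeff n = (c n : ℚ) * f.1.coeff n :=
  coeff_mulcP f.1 n

lemma co_mulc (f : D) (n : ℕ) : co n (mulc f) = c n * co n f := by
  have : ((co n (mulc f) : ℤ) : ℚ) = ((c n * co n f : ℤ) : ℚ) := by
    push_cast
    rw [co_cast, co_cast, coeff_mulc]
    ring
  exact_mod_cast this

lemma mulc_dp (z : ℤ) (n : ℕ) : mulc (z • dp n) = (c n * z) • dp n := by
  apply ext_co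
  intro m
  rw [co_mulc, co_smul, co_smul, co_dp]
  split_ifs with h
  · rw [h]; ring
  · simp

/-- The map on the free module. -/
noncomputable def Phi : (Fin 2 → D) →+ (Fin 2 → D) where
  toFun v := ![v 0, mulc (v 1)]
  map_zero' := by
    ext1 t
    fin_cases t
    · rfl
    · show mulc 0 = 0
      exact map_zero _
  map_add' v w := by
    ext1 t
    fin_cases t
    · rfl
    · show mulc (v 1 + w 1) = mulc (v 1) + mulc (w 1)
      exact map_add _ _ _

lemma arith_aux {u u' w w' w'' cc z C N : ℤ} (hw : 5 * u - u' = 12 * w) (hw' : cc - 5 = 12 * w')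
    (hw'' : ((24 : ℕ) : ℤ) * C = N * w'') :
    z * 2 * C * (u' - u * cc) = N * (z * (- w - u * w') * w'') := by
  push_cast at hw''
  have h1 : u' = 5 * u - 12 * w := by linarith
  have h2 : cc = 5 + 12 * w' := by linarith
  rw [h1, h2]
  linear_combination (z * (- w - u * w')) * hw''

lemma Phi_K {u u' : ℤ} (h : (12 : ℤ) ∣ 5 * u - u') {v : Fin 2 → D} (hv : v ∈ (PP u).K) :
    Phi v ∈ (PP u').K := by
  refine K_induction (p := fun v => Phi v ∈ (PP u').K) ?_ ?_ ?_ hv
  · rw [map_zero]; exact Submodule.zero_mem _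
  · intro v w hv hw
    rw [map_add]; exact Submodule.add_mem _ hv hw
  · intro z i t
    fin_cases t
    · have h2 : Phi ((z • dp i) • rel u 0) = ![(z * (i + 1 : ℕ)) • dp (i + 1), 0] := by
        ext1 t
        fin_cases t
        · show (z • dp i) * dp 1 = _
          have h3 := smul_dp_mul z 1 i 1
          rw [one_smul, choose_succ_left, mul_one] at h3
          exact h3
        · show mulc ((z • dp i) * 0) = 0
          rw [mul_zero, map_zero]
      show Phi ((z • dp i) • rel u 0) ∈ _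
      rw [h2]
      exact memA (by omega) (Dvd.intro_left _ rfl)
    · have h2 : Phi ((z • dp i) • rel u 1) = ![0, (c (i + 1) * (z * (i + 1 : ℕ))) • dp (i + 1)] := by
        ext1 t
        fin_cases t
        · show (z • dp i) * 0 = 0
          rw [mul_zero]
        · show mulc ((z • dp i) * dp 1) = _
          have h3 := smul_dp_mul z 1 i 1
          rw [one_smul, choose_succ_left, mul_one] at h3
          rw [h3, mulc_dp]
          rfl
      show Phi ((z • dp i) • rel u 1) ∈ _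
      rw [h2]
      exact memB (by omega) (Dvd.dvd.mul_left (Dvd.intro_left _ rfl) _)
    · have h2 : Phi ((z • dp i) • rel u 2) = (z • dp i) • rel u' 2 +
          ![0, (z * 2 * ((i + 24).choose i : ℤ) * (u' - u * c (i + 24))) • dp (i + 24)] := by
        ext1 t
        fin_cases t
        · show (z • dp i) * ((3 : ℤ) • dp 36) = (z • dp i) * ((3 : ℤ) • dp 36) + 0
          rw [add_zero]
        · show mulc ((z • dp i) * ((-(2 * u)) • dp 24)) = (z • dp i) * ((-(2 * u')) • dp 24) +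
            (z * 2 * ((i + 24).choose i : ℤ) * (u' - u * c (i + 24))) • dp (i + 24)
          rw [smul_dp_mul, smul_dp_mul, mulc_dp, ← add_smul]
          generalize c (i + 24) = cc
          generalize ((i + 24).choose i : ℤ) = C
          exact congrArg (fun a : ℤ => a • dp (i + 24)) (by ring)
      show Phi ((z • dp i) • rel u 2) ∈ _
      rw [h2]
      refine Submodule.add_mem _ (rel_mem _ _ _) (memB (by omega) ?_)
      obtain ⟨w, hw⟩ := h
      obtain ⟨w', hw'⟩ := c_mod (i + 24)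
      obtain ⟨w'', hw''⟩ := dvd_choose i 24 (by norm_num)
      exact ⟨z * (- w - u * w') * w'', arith_aux hw hw' hw''⟩

lemma coeff_zero_of_co {f : D} {n : ℕ} (h : co n f = 0) : f.1.coeff n = 0 := by
  have h1 := co_cast n f
  rw [h] at h1
  have h2 : (n.factorial : ℚ) ≠ 0 := Nat.cast_ne_zero.2 (Nat.factorial_ne_zero n)
  have h3 : (n.factorial : ℚ) * f.1.coeff n = 0 := by rw [← h1]; simp
  exact (mul_eq_zero.1 h3).resolve_left h2

lemma co_of_coeff_zero {f : D} {n : ℕ} (h : f.1.coeff n = 0) : co n f = 0 := by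
  have h1 := co_cast n f
  rw [h, mul_zero] at h1
  exact_mod_cast h1

/-- Additivity in the second coordinate. -/
lemma addB {u : ℤ} {f g : D} (hf : ![0, f] ∈ (PP u).K) (hg : ![0, g] ∈ (PP u).K) :
    ![0, f + g] ∈ (PP u).K := by
  have h : (![0, f + g] : Fin 2 → D) = ![0, f] + ![0, g] := by
    ext1 t
    fin_cases t
    · show (0 : D) = 0 + 0
      rw [add_zero]
    · rfl
  rw [h]
  exact Submodule.add_mem _ hf hg

/-- Induction for elements without constant term. -/
lemma D_induction' {p : D → Prop} (h0 : p 0) (hadd : ∀ f g, p f → p g → p (f + g))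
    (hx : ∀ (z : ℤ) (n : ℕ), 1 ≤ n → p (z • dp n)) {f : D} (hf : f.1.coeff 0 = 0) : p f := by
  rw [eq_sum f]
  refine Finset.sum_induction _ p hadd h0 fun n _ => ?_
  rcases Nat.eq_zero_or_pos n with h | h
  · rw [h, co_of_coeff_zero hf, zero_smul]; exact h0
  · exact hx _ _ h

lemma lin {u : ℤ} {g : D} (hg : g.1.coeff 0 = 0) (d : D) :
    ![0, mulc (d * g) - d * mulc g] ∈ (PP u).K := by
  refine D_induction' (p := fun g => ∀ d : D, ![0, mulc (d * g) - d * mulc g] ∈ (PP u).K)
    ?_ ?_ ?_ hg d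
  · intro d
    rw [mul_zero, map_zero, mul_zero, sub_zero]
    have : (![0, 0] : Fin 2 → D) = 0 := by
      ext1 t; fin_cases t <;> rfl
    rw [this]; exact Submodule.zero_mem _
  · intro f g hf hg d
    have h := addB (hf d) (hg d)
    have e : mulc (d * f) - d * mulc f + (mulc (d * g) - d * mulc g) =
        mulc (d * (f + g)) - d * mulc (f + g) := by
      rw [mul_add, map_add, map_add, mul_add]; ring
    rwa [e] at h
  · intro z m hm d
    refine D_induction (p := fun d => ![0, mulc (d * (z • dp m)) - d * mulc (z • dp m)] ∈ (PP u).K)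
      ?_ ?_ ?_ d
    · rw [zero_mul, map_zero, zero_mul, sub_zero]
      have : (![0, 0] : Fin 2 → D) = 0 := by
        ext1 t; fin_cases t <;> rfl
      rw [this]; exact Submodule.zero_mem _
    · intro f g hf hg
      have h := addB hf hg
      have e : mulc (f * (z • dp m)) - f * mulc (z • dp m) +
          (mulc (g * (z • dp m)) - g * mulc (z • dp m)) =
          mulc ((f + g) * (z • dp m)) - (f + g) * mulc (z • dp m) := by
        rw [add_mul, map_add, add_mul]; ring
      rwa [e] at h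
    · intro z' j
      have e : mulc ((z' • dp j) * (z • dp m)) - (z' • dp j) * mulc (z • dp m) =
          (z' * z * (((j + m).choose j : ℤ) * (c (j + m) - c m))) • dp (j + m) := by
        rw [smul_dp_mul, mulc_dp, mulc_dp, smul_dp_mul, ← sub_smul]
        congr 1
        ring
      rw [e]
      refine memB (by omega) (Dvd.dvd.mul_left ?_ _)
      obtain ⟨w, hw⟩ := c_sub hm (Nat.le_add_left m j)
      obtain ⟨w', hw'⟩ := dvd_choose j m hm
      refine ⟨w' * w, ?_⟩
      rw [hw]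
      linear_combination w * hw'

lemma inv {u : ℤ} {g : D} (hg : g.1.coeff 0 = 0) : ![0, mulc (mulc g) - g] ∈ (PP u).K := by
  refine D_induction' (p := fun g => ![0, mulc (mulc g) - g] ∈ (PP u).K) ?_ ?_ ?_ hg
  · rw [map_zero, map_zero, sub_zero]
    have : (![0, 0] : Fin 2 → D) = 0 := by
      ext1 t; fin_cases t <;> rfl
    rw [this]; exact Submodule.zero_mem _
  · intro f g hf hg
    have h := addB hf hg
    have e : mulc (mulc f) - f + (mulc (mulc g) - g) = mulc (mulc (f + g)) - (f + g) := by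
      rw [map_add, map_add]; ring
    rwa [e] at h
  · intro z m hm
    have e : mulc (mulc (z • dp m)) - z • dp m = ((c m * c m - 1) * z) • dp m := by
      rw [mulc_dp, mulc_dp, ← sub_smul]
      congr 1
      ring
    rw [e]
    exact memB hm (Dvd.dvd.mul_right (c_sq hm) _)

/-- Elements of the free module all of whose components have degree `≥ 13`. -/
def InT (v : Fin 2 → D) : Prop := (∀ n < 13, (v 0).1.coeff n = 0) ∧ (v 1).1.coeff 0 = 0

lemma InT.Phi {v : Fin 2 → D} (hv : InT v) : InT (Phi v) := by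
  refine ⟨hv.1, ?_⟩
  show (mulc (v 1)).1.coeff 0 = 0
  rw [coeff_mulc, hv.2, mul_zero]

lemma InT.smul {v : Fin 2 → D} (hv : InT v) (d : D) : InT (d • v) := by
  constructor
  · have h1 : X ^ 13 ∣ (v 0).1 := X_pow_dvd_iff.2 hv.1
    have h2 : X ^ 13 ∣ ((d • v) 0).1 := by
      show X ^ 13 ∣ (d * v 0).1
      rw [coe_mul]
      exact Dvd.dvd.mul_left h1 _
    exact X_pow_dvd_iff.1 h2
  · have h1 : X ∣ (v 1).1 := X_dvd_iff.2 hv.2
    have h2 : X ∣ ((d • v) 1).1 := by
      show X ∣ (d * v 1).1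
      rw [coe_mul]
      exact Dvd.dvd.mul_left h1 _
    exact X_dvd_iff.1 h2

/-- The lifts of the elements of the truncation. -/
lemma trunc_lift {u : ℤ} {y : (PP u).N} (hy : y ∈ (PP u).trunc 13) :
    ∃ v, InT v ∧ (PP u).K.mkQ v = y := by
  induction hy using Submodule.span_induction with
  | mem y hy =>
    obtain ⟨m, hm, v, hv, rfl⟩ := hy
    refine ⟨v, ⟨fun n hn => ?_, ?_⟩, rfl⟩
    · have h := hv 0 n
      refine h ?_
      show (n : ℤ) ≠ m - 0
      omega
    · have h := hv 1 0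
      refine h ?_
      show ((0 : ℕ) : ℤ) ≠ m - 12
      omega
  | zero => exact ⟨0, ⟨fun n _ => rfl, rfl⟩, map_zero _⟩
  | add x y _ _ hx hy =>
    obtain ⟨v, hv, rfl⟩ := hx
    obtain ⟨w, hw, rfl⟩ := hy
    refine ⟨v + w, ⟨fun n hn => ?_, ?_⟩, map_add _ _ _⟩
    · show (v 0 + w 0).1.coeff n = 0
      rw [coe_add, coeff_add, hv.1 n hn, hw.1 n hn, add_zero]
    · show (v 1 + w 1).1.coeff 0 = 0
      rw [coe_add, coeff_add, hv.2, hw.2, add_zero]
  | smul d x _ hx =>
    obtain ⟨v, hv, rfl⟩ := hx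
    exact ⟨d • v, hv.smul d, map_smul _ _ _⟩

lemma mk_A_mem (u : ℤ) (z : ℤ) (n : ℕ) : (PP u).K.mkQ ![z • dp n, 0] ∈ (PP u).gr n := by
  refine ⟨_, fun i => ?_, rfl⟩
  fin_cases i
  · exact DPart_of_eq (by show (n : ℤ) - 0 = n; ring) _
  · exact DPart_zero _

lemma mk_B_mem (u : ℤ) (z : ℤ) (n : ℕ) :
    (PP u).K.mkQ ![0, z • dp n] ∈ (PP u).gr ((n : ℤ) + 12) := by
  refine ⟨_, fun i => ?_, rfl⟩
  fin_cases i
  · exact DPart_zero _
  · exact DPart_of_eq (by show (n : ℤ) + 12 - 12 = n; ring) _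

lemma vec_add (f f' g g' : D) : (![f + f', g + g'] : Fin 2 → D) = ![f, g] + ![f', g'] := by
  ext1 t
  fin_cases t <;> rfl

lemma vec_eq (v : Fin 2 → D) : v = ![v 0, 0] + ![0, v 1] := by
  ext1 t
  fin_cases t
  · show v 0 = v 0 + 0
    rw [add_zero]
  · show v 1 = 0 + v 1
    rw [zero_add]

lemma vec_zero : (![0, 0] : Fin 2 → D) = 0 := by
  ext1 t
  fin_cases t <;> rfl

lemma trunc_of_InT {u : ℤ} {v : Fin 2 → D} (hv : InT v) :
    (PP u).K.mkQ v ∈ (PP u).trunc 13 := by
  rw [vec_eq v, map_add]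
  refine Submodule.add_mem _ ?_ ?_
  · have key : (v 0).1.coeff 0 = 0 → (PP u).K.mkQ ![v 0, 0] ∈ (PP u).trunc 13 := by
      intro _
      have h := eq_sum (v 0)
      have h2 : ∀ (s : Finset ℕ) (g : ℕ → D), (∀ n ∈ s, (PP u).K.mkQ ![g n, 0] ∈ (PP u).trunc 13) →
          (PP u).K.mkQ ![∑ n ∈ s, g n, 0] ∈ (PP u).trunc 13 := by
        classical
        intro s g hg
        induction s using Finset.induction_on with
        | empty =>
          rw [Finset.sum_empty, vec_zero, map_zero]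
          exact Submodule.zero_mem _
        | insert a s ha ih =>
          rw [Finset.sum_insert ha]
          have h3 : (![g a + ∑ n ∈ s, g n, 0] : Fin 2 → D) = ![g a, 0] + ![∑ n ∈ s, g n, 0] := by
            rw [← vec_add, add_zero]
          rw [h3, map_add]
          exact Submodule.add_mem _ (hg a (Finset.mem_insert_self _ _))
            (ih fun n hn => hg n (Finset.mem_insert_of_mem hn))
      rw [h]
      refine h2 _ _ fun n _ => ?_
      rcases Nat.lt_or_ge n 13 with hn | hn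
      · rw [co_of_coeff_zero (hv.1 n hn), zero_smul, vec_zero, map_zero]
        exact Submodule.zero_mem _
      · exact Submodule.subset_span ⟨n, by exact_mod_cast hn, mk_A_mem _ _ _⟩
    exact key (hv.1 0 (by norm_num))
  · refine D_induction' (p := fun g => (PP u).K.mkQ ![0, g] ∈ (PP u).trunc 13) ?_ ?_ ?_ hv.2
    · rw [vec_zero, map_zero]
      exact Submodule.zero_mem _
    · intro f g hf hg
      have h3 : (![0, f + g] : Fin 2 → D) = ![0, f] + ![0, g] := by
        rw [← vec_add, add_zero]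
      rw [h3, map_add]
      exact Submodule.add_mem _ hf hg
    · intro z n hn
      refine Submodule.subset_span ⟨(n : ℤ) + 12, ?_, mk_B_mem _ _ _⟩
      have : (1 : ℤ) ≤ n := by exact_mod_cast hn
      linarith

/-- The induced map on the quotients. -/
noncomputable def Phibar {u u' : ℤ} (h : (12 : ℤ) ∣ 5 * u - u') : (PP u).N →+ (PP u').N :=
  QuotientAddGroup.lift (PP u).K.toAddSubgroup
    (((PP u').K.mkQ.toAddMonoidHom).comp Phi) (by
      intro v hv
      show (PP u').K.mkQ (Phi v) = 0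
      rw [Submodule.mkQ_apply, Submodule.Quotient.mk_eq_zero]
      exact Phi_K h hv)

lemma Phibar_mk {u u' : ℤ} (h : (12 : ℤ) ∣ 5 * u - u') (v : Fin 2 → D) :
    Phibar h ((PP u).K.mkQ v) = (PP u').K.mkQ (Phi v) := rfl

lemma Phibar_smul {u u' : ℤ} (h : (12 : ℤ) ∣ 5 * u - u') (d : D) {y : (PP u).N}
    (hy : y ∈ (PP u).trunc 13) : Phibar h (d • y) = d • Phibar h y := by
  obtain ⟨v, hv, rfl⟩ := trunc_lift hy
  rw [← map_smul, Phibar_mk, Phibar_mk, ← map_smul, ← sub_eq_zero, ← map_sub,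
    Submodule.mkQ_apply, Submodule.Quotient.mk_eq_zero]
  have h1 : Phi (d • v) - d • Phi v = ![0, mulc (d * v 1) - d * mulc (v 1)] := by
    ext1 t
    fin_cases t
    · show d * v 0 - d * v 0 = 0
      rw [sub_self]
    · rfl
  rw [h1]
  exact lin hv.2 d

lemma Phibar_inv {u u' : ℤ} (h : (12 : ℤ) ∣ 5 * u - u') (h' : (12 : ℤ) ∣ 5 * u' - u)
    {y : (PP u).N} (hy : y ∈ (PP u).trunc 13) : Phibar h' (Phibar h y) = y := by
  obtain ⟨v, hv, rfl⟩ := trunc_lift hy
  rw [Phibar_mk, Phibar_mk, ← sub_eq_zero, ← map_sub, Submodule.mkQ_apply,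
    Submodule.Quotient.mk_eq_zero]
  have h1 : Phi (Phi v) - v = ![0, mulc (mulc (v 1)) - v 1] := by
    ext1 t
    fin_cases t
    · show v 0 - v 0 = 0
      rw [sub_self]
    · rfl
  rw [h1]
  exact inv hv.2

lemma Phibar_mem {u u' : ℤ} (h : (12 : ℤ) ∣ 5 * u - u') {y : (PP u).N}
    (hy : y ∈ (PP u).trunc 13) : Phibar h y ∈ (PP u').trunc 13 := by
  obtain ⟨v, hv, rfl⟩ := trunc_lift hy
  rw [Phibar_mk]
  exact trunc_of_InT hv.Phi

lemma Phibar_gr {u u' : ℤ} (h : (12 : ℤ) ∣ 5 * u - u') {y : (PP u).N} {m : ℤ}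
    (hy : y ∈ (PP u).gr m) : Phibar h y ∈ (PP u').gr m := by
  obtain ⟨v, hv, rfl⟩ := hy
  refine ⟨Phi v, fun i => ?_, (Phibar_mk h v).symm⟩
  fin_cases i
  · exact hv 0
  · intro n hn
    show (mulc (v 1)).1.coeff n = 0
    rw [coeff_mulc]
    have := hv 1 n hn
    rw [this, mul_zero]

/-- The isomorphism of truncations. -/
noncomputable def truncEquiv {u u' : ℤ} (h : (12 : ℤ) ∣ 5 * u - u')
    (h' : (12 : ℤ) ∣ 5 * u' - u) : (PP u).trunc 13 ≃ₗ[D] (PP u').trunc 13 where
  toFun y := ⟨Phibar h y.1, Phibar_mem h y.2⟩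
  map_add' _ _ := Subtype.ext (map_add _ _ _)
  map_smul' d y := Subtype.ext (Phibar_smul h d y.2)
  invFun y := ⟨Phibar h' y.1, Phibar_mem h' y.2⟩
  left_inv y := Subtype.ext (Phibar_inv h h' y.2)
  right_inv y := Subtype.ext (Phibar_inv h' h y.2)

lemma truncIso {u u' : ℤ} (h : (12 : ℤ) ∣ 5 * u - u') (h' : (12 : ℤ) ∣ 5 * u' - u) :
    TruncIso (PP u) (PP u') 13 := by
  refine ⟨truncEquiv h h', fun m y => ⟨fun hy => Phibar_gr h hy, fun hy => ?_⟩⟩
  have h1 := Phibar_gr h' hy
  have h2 : Phibar h' (truncEquiv h h' y).1 = y.1 := Phibar_inv h h' y.2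
  rwa [h2] at h1

/-- Coordinates of the elements of the relation module. -/
lemma K_coords {u : ℤ} {v : Fin 2 → D} (hv : v ∈ (PP u).K) :
    co 0 (v 0) = 0 ∧ co 0 (v 1) = 0 ∧
    ∃ p q l : ℤ, co 36 (v 0) = 36 * p + 3 * l ∧ co 24 (v 1) = 24 * q - 2 * u * l := by
  refine K_induction (p := fun v => co 0 (v 0) = 0 ∧ co 0 (v 1) = 0 ∧
    ∃ p q l : ℤ, co 36 (v 0) = 36 * p + 3 * l ∧ co 24 (v 1) = 24 * q - 2 * u * l) ?_ ?_ ?_ hv
  · refine ⟨co_zero _, co_zero _, 0, 0, 0, ?_, ?_⟩
    · show co 36 0 = _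
      rw [co_zero]; ring
    · show co 24 0 = _
      rw [co_zero]; ring
  · rintro v w ⟨h1, h2, p, q, l, h3, h4⟩ ⟨h1', h2', p', q', l', h3', h4'⟩
    refine ⟨?_, ?_, p + p', q + q', l + l', ?_, ?_⟩
    · show co 0 (v 0 + w 0) = 0
      rw [co_add, h1, h1', add_zero]
    · show co 0 (v 1 + w 1) = 0
      rw [co_add, h2, h2', add_zero]
    · show co 36 (v 0 + w 0) = _
      rw [co_add, h3, h3']; ring
    · show co 24 (v 1 + w 1) = _
      rw [co_add, h4, h4']; ring
  · intro z i t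
    fin_cases t
    · have h3 : (z • dp i) * dp 1 = (z * (i + 1 : ℕ)) • dp (i + 1) := by
        have h3 := smul_dp_mul z 1 i 1
        rwa [one_smul, choose_succ_left, mul_one] at h3
      have e0 : ((z • dp i) • rel u 0) 0 = (z * (i + 1 : ℕ)) • dp (i + 1) := h3
      have e1 : ((z • dp i) • rel u 0) 1 = 0 := by
        show (z • dp i) * 0 = 0
        rw [mul_zero]
      show co 0 (((z • dp i) • rel u 0) 0) = 0 ∧ co 0 (((z • dp i) • rel u 0) 1) = 0 ∧
        ∃ p q l : ℤ, co 36 (((z • dp i) • rel u 0) 0) = 36 * p + 3 * l ∧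
          co 24 (((z • dp i) • rel u 0) 1) = 24 * q - 2 * u * l
      rw [e0, e1]
      refine ⟨?_, co_zero _, if i + 1 = 36 then z else 0, 0, 0, ?_, ?_⟩
      · rw [co_smul, co_dp, if_neg (by omega), mul_zero]
      · rw [co_smul, co_dp]
        split_ifs with h
        · rw [h]; push_cast; ring
        · ring
      · rw [co_zero]; ring
    · have h3 : (z • dp i) * dp 1 = (z * (i + 1 : ℕ)) • dp (i + 1) := by
        have h3 := smul_dp_mul z 1 i 1
        rwa [one_smul, choose_succ_left, mul_one] at h3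
      have e0 : ((z • dp i) • rel u 1) 1 = (z * (i + 1 : ℕ)) • dp (i + 1) := h3
      have e1 : ((z • dp i) • rel u 1) 0 = 0 := by
        show (z • dp i) * 0 = 0
        rw [mul_zero]
      show co 0 (((z • dp i) • rel u 1) 0) = 0 ∧ co 0 (((z • dp i) • rel u 1) 1) = 0 ∧
        ∃ p q l : ℤ, co 36 (((z • dp i) • rel u 1) 0) = 36 * p + 3 * l ∧
          co 24 (((z • dp i) • rel u 1) 1) = 24 * q - 2 * u * l
      rw [e0, e1]
      refine ⟨co_zero _, ?_, 0, if i + 1 = 24 then z else 0, 0, ?_, ?_⟩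
      · rw [co_smul, co_dp, if_neg (by omega), mul_zero]
      · rw [co_zero]; ring
      · rw [co_smul, co_dp]
        split_ifs with h
        · rw [h]; push_cast; ring
        · ring
    · have e0 : ((z • dp i) • rel u 2) 0 = (z * 3 * ((i + 36).choose i : ℤ)) • dp (i + 36) :=
        smul_dp_mul z 3 i 36
      have e1 : ((z • dp i) • rel u 2) 1 =
          (z * (-(2 * u)) * ((i + 24).choose i : ℤ)) • dp (i + 24) :=
        smul_dp_mul z (-(2 * u)) i 24
      show co 0 (((z • dp i) • rel u 2) 0) = 0 ∧ co 0 (((z • dp i) • rel u 2) 1) = 0 ∧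
        ∃ p q l : ℤ, co 36 (((z • dp i) • rel u 2) 0) = 36 * p + 3 * l ∧
          co 24 (((z • dp i) • rel u 2) 1) = 24 * q - 2 * u * l
      rw [e0, e1]
      refine ⟨?_, ?_, 0, 0, if i = 0 then z else 0, ?_, ?_⟩
      · rw [co_smul, co_dp, if_neg (by omega), mul_zero]
      · rw [co_smul, co_dp, if_neg (by omega), mul_zero]
      · rw [co_smul, co_dp]
        by_cases h : i = 0
        · subst h; simp; ring
        · rw [if_neg (by omega), if_neg h]; ring
      · rw [co_smul, co_dp]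
        by_cases h : i = 0
        · subst h; simp; ring
        · rw [if_neg (by omega), if_neg h]; ring

/-- The elements of degree `0`. -/
lemma gr_zero {u : ℤ} {y : (PP u).N} (hy : y ∈ (PP u).gr 0) :
    ∃ z : ℤ, y = (PP u).K.mkQ ![z • dp 0, 0] := by
  obtain ⟨v, hv, rfl⟩ := hy
  refine ⟨co 0 (v 0), ?_⟩
  congr 1
  ext1 t
  fin_cases t
  · refine eq_of_DPart (m := 0) ?_
    have := hv 0
    exact this
  · refine eq_zero_of_DPart (m := -12) (by norm_num) ?_
    have := hv 1
    exact this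

/-- The elements of degree `12`. -/
lemma gr_twelve {u : ℤ} {y : (PP u).N} (hy : y ∈ (PP u).gr 12) :
    ∃ k z : ℤ, y = (PP u).K.mkQ ![k • dp 12, z • dp 0] := by
  obtain ⟨v, hv, rfl⟩ := hy
  refine ⟨co 12 (v 0), co 0 (v 1), ?_⟩
  congr 1
  ext1 t
  fin_cases t
  · refine eq_of_DPart (m := 12) ?_
    have := hv 0
    exact this
  · refine eq_of_DPart (m := 0) ?_
    have := hv 1
    exact this

lemma dp_zero : dp 0 = 1 := by
  apply ext_co
  intro n
  have h : (1 : D) = (1 : ℤ) • dp 0 := by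
    apply Subtype.ext
    rw [coe_zsmul, one_smul]
    show (1 : ℚ[X]) = monomial 0 (1 / ((0 : ℕ).factorial : ℚ))
    simp
  rw [h, one_smul]

lemma mk_eq (u : ℤ) (f g : D) : (PP u).K.mkQ ![f, g] =
    f • (PP u).K.mkQ ![1, 0] + g • (PP u).K.mkQ ![0, 1] := by
  rw [← map_smul, ← map_smul, ← map_add]
  congr 1
  ext1 t
  fin_cases t
  · show f = f * 1 + g * 0
    rw [mul_one, mul_zero, add_zero]
  · show g = f * 0 + g * 1
    rw [mul_one, mul_zero, zero_add]

lemma A_mem (u : ℤ) : (PP u).K.mkQ ![1, 0] ∈ (PP u).gr 0 := by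
  have h := mk_A_mem u 1 0
  rw [one_smul, dp_zero] at h
  exact_mod_cast h

lemma B_mem (u : ℤ) : (PP u).K.mkQ ![0, 1] ∈ (PP u).gr 12 := by
  have h := mk_B_mem u 1 0
  rw [one_smul, dp_zero, Nat.cast_zero, zero_add] at h
  exact h

lemma choose_val : (36 : ℕ).choose 24 = 18 * 69537650 := by
  norm_num [Nat.choose_eq_factorial_div_factorial, Nat.factorial]

/-- `N_1` and `N_5` are not isomorphic. -/
lemma not_iso : ¬ GrIso (PP 1) (PP 5) := by
  rintro ⟨f, hf⟩
  obtain ⟨ε, hε⟩ := gr_zero ((hf 0 _).1 (A_mem 1))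
  obtain ⟨k, δ, hδ⟩ := gr_twelve ((hf 12 _).1 (B_mem 1))
  obtain ⟨ε', hε'⟩ := gr_zero (y := f.symm ((PP 5).K.mkQ ![1, 0]))
    ((hf 0 _).2 (by rw [LinearEquiv.apply_symm_apply]; exact A_mem 5))
  obtain ⟨k', δ', hδ'⟩ := gr_twelve (y := f.symm ((PP 5).K.mkQ ![0, 1]))
    ((hf 12 _).2 (by rw [LinearEquiv.apply_symm_apply]; exact B_mem 5))
  -- the unit `ε`
  have h1 : ε' * ε = 1 := by
    have h2 : (PP 5).K.mkQ ![1, 0] = f (f.symm ((PP 5).K.mkQ ![1, 0])) :=
      (LinearEquiv.apply_symm_apply _ _).symm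
    rw [hε', mk_eq 1, zero_smul, add_zero, map_smul, hε, ← map_smul, ← sub_eq_zero, ← map_sub,
      Submodule.mkQ_apply, Submodule.Quotient.mk_eq_zero] at h2
    have h3 := (K_coords h2).1
    have h4 : (![1, 0] - (ε' • dp 0) • ![ε • dp 0, 0] : Fin 2 → D) 0 =
        (1 : ℤ) • dp 0 + (-(ε' * ε)) • dp 0 := by
      show (1 : D) - (ε' • dp 0) * (ε • dp 0) = _
      rw [smul_dp_mul, dp_zero, one_smul, neg_smul]
      simp [sub_eq_add_neg]
    rw [h4, co_add, co_smul, co_smul, co_dp, if_pos rfl] at h3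
    linarith
  have h1' : δ' * δ = 1 := by
    have h2 : (PP 5).K.mkQ ![0, 1] = f (f.symm ((PP 5).K.mkQ ![0, 1])) :=
      (LinearEquiv.apply_symm_apply _ _).symm
    rw [hδ', mk_eq 1, map_add, map_smul, map_smul, hε, hδ, ← map_smul, ← map_smul, ← map_add,
      ← sub_eq_zero, ← map_sub, Submodule.mkQ_apply, Submodule.Quotient.mk_eq_zero] at h2
    have h3 := (K_coords h2).2.1
    have h4 : (![0, 1] - ((k' • dp 12) • ![ε • dp 0, 0] + (δ' • dp 0) • ![k • dp 12, δ • dp 0]) :
        Fin 2 → D) 1 = (1 : ℤ) • dp 0 + (-(δ' * δ)) • dp 0 := by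
      show (1 : D) - ((k' • dp 12) * 0 + (δ' • dp 0) * (δ • dp 0)) = _
      rw [smul_dp_mul, dp_zero, one_smul, neg_smul, mul_zero, zero_add]
      simp [sub_eq_add_neg]
    rw [h4, co_add, co_smul, co_smul, co_dp, if_pos rfl] at h3
    linarith
  -- the relation
  have h5 : (PP 1).K.mkQ ![(3 : ℤ) • dp 36, (-(2 * 1)) • dp 24] = 0 := by
    rw [Submodule.mkQ_apply, Submodule.Quotient.mk_eq_zero]
    have := rel_mem 1 1 2
    rwa [one_smul] at this
  rw [mk_eq] at h5
  have h6 := congrArg f h5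
  rw [map_zero, map_add, map_smul, map_smul, hε, hδ, ← map_smul, ← map_smul, ← map_add,
    Submodule.mkQ_apply, Submodule.Quotient.mk_eq_zero] at h6
  obtain ⟨-, -, p, q, l, h7, h8⟩ := K_coords h6
  have e7 : (((3 : ℤ) • dp 36) • ![ε • dp 0, 0] + ((-(2 * 1) : ℤ) • dp 24) • ![k • dp 12, δ • dp 0] :
      Fin 2 → D) 0 = (3 * ε) • dp 36 + (-2 * k * (18 * 69537650)) • dp 36 := by
    show ((3 : ℤ) • dp 36) * (ε • dp 0) + ((-(2 * 1) : ℤ) • dp 24) * (k • dp 12) = _
    rw [smul_dp_mul, smul_dp_mul]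
    have e1 : 36 + 0 = 36 := rfl
    rw [e1, Nat.choose_self, choose_val]
    push_cast
    rw [mul_one]
  have e8 : (((3 : ℤ) • dp 36) • ![ε • dp 0, 0] + ((-(2 * 1) : ℤ) • dp 24) • ![k • dp 12, δ • dp 0] :
      Fin 2 → D) 1 = (-2 * δ) • dp 24 := by
    show ((3 : ℤ) • dp 36) * 0 + ((-(2 * 1) : ℤ) • dp 24) * (δ • dp 0) = _
    rw [smul_dp_mul, mul_zero, zero_add]
    have e1 : 24 + 0 = 24 := rfl
    rw [e1, Nat.choose_self]
    push_cast
    rw [mul_one]
  rw [e7, co_add, co_smul, co_smul, co_dp, if_pos rfl] at h7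
  rw [e8, co_smul, co_dp, if_pos rfl] at h8
  have hε1 : ε = 1 ∨ ε = -1 := Int.isUnit_iff.1 (IsUnit.of_mul_eq_one ε' (by linarith))
  have hδ1 : δ = 1 ∨ δ = -1 := Int.isUnit_iff.1 (IsUnit.of_mul_eq_one δ' (by linarith))
  rcases hε1 with rfl | rfl <;> rcases hδ1 with rfl | rfl <;> omega

end example'

/-- **Weak fp-envelopes over `ℤ` are not unique.**  There are finitely presented graded modules over
the divided power algebra over `ℤ` which are not isomorphic but have isomorphic truncations. -/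
theorem result : ∃ (P P' : GrPres 2 3) (n : ℤ),
    (P.toGrMod.trunc n).Iso (P'.toGrMod.trunc n) ∧ ¬ P.toGrMod.Iso P'.toGrMod := by
  refine ⟨PP 1, PP 5, 13, ?_, ?_⟩
  · obtain ⟨f, hf⟩ := truncIso (u := 1) (u' := 5) (by norm_num) (by norm_num)
    exact ⟨f, hf⟩
  · rintro ⟨f, hf⟩
    exact not_iso ⟨f, hf⟩

end Pool.Agent.Results.MP_c3bf79_al.TwoEnvelopes
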